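import Mathlib
import Pool.Agent.NH7.Sch.Fin

/-!
# Schneider's conjecture for cyclic extensions of degree `p ^ n` with arbitrarily many ramified
primes, for all primes `p` and all twists

Let `p` be a prime number and `n > 0`, and let `K` be a number field which contains a primitive
`p ^ n`-th root of unity (and a square root of `-1` if `p = 2`), which has only one prime above `p`
and whose class number is prime to `p`. An example is `K = ℚ(μ_{p^k})` for `k ≥ n` and a regular
prime `p`.

Theorem: for all `m > 0` there are infinitely many cyclic extensions `L` of `K` of degree `p ^ n`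
such that exactly `m` primes of `K` not above `p` ramify in `L` and such that for **all** integers
`r` the group `Ш¹(O_{L,S}, ℤ_p(r))` is zero, for every `S`. Moreover, `L / K` can be chosen to be
unramified at a given finite set of primes not above `p`.
-/

set_option autoImplicit false

namespace Pool.Agent.Results.MP_59f3ad_nt.CyclicOverRegularFields

open NumberField IsDedekindDomain

/-! ### The Galois groups, the decomposition groups and the inertia groups -/

/-- An algebraic closure of the number field `K`. -/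
abbrev Bar (K : Type) [Field K] : Type := AlgebraicClosure K

/-- The absolute Galois group of `K`. -/
abbrev Gal (K : Type) [Field K] : Type := Bar K ≃ₐ[K] Bar K

/-- The absolute Galois group of the field `L` between `K` and its algebraic closure. -/
abbrev GalL {K : Type} [Field K] (L : IntermediateField K (Bar K)) : Type := L.fixingSubgroup

/-- The decomposition group in the absolute Galois group of `L` of the maximal ideal `Q` of the ring
of all algebraic integers: the `σ` such that `σ Q = Q`. -/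
def Dec {K : Type} [Field K] (L : IntermediateField K (Bar K)) (Q : Ideal (𝓞 (Bar K))) :
    Set (GalL L) :=
  {σ | ∀ x : 𝓞 (Bar K), x ∈ Q ↔ (σ : Gal K) • x ∈ Q}

/-- The inertia group: the `σ` such that `σ x` is congruent to `x` modulo `Q` for all `x`. -/
def Inr {K : Type} [Field K] (L : IntermediateField K (Bar K)) (Q : Ideal (𝓞 (Bar K))) :
    Set (GalL L) :=
  {σ | ∀ x : 𝓞 (Bar K), (σ : Gal K) • x - x ∈ Q}

/-- The prime `v` of `K` ramifies in the Galois extension `L` of `K`: there are a maximal ideal `Q`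
above `v` and an element of the inertia group of `Q` over `K` which is not trivial on `L`. -/
def Ramifies {K : Type} [Field K] (L : IntermediateField K (Bar K))
    (v : HeightOneSpectrum (𝓞 K)) : Prop :=
  ∃ Q : Ideal (𝓞 (Bar K)), Q.IsMaximal ∧ Q.comap (algebraMap (𝓞 K) (𝓞 (Bar K))) = v.asIdeal ∧
    ∃ σ : Gal K, (∀ x : 𝓞 (Bar K), σ • x - x ∈ Q) ∧ ∃ x ∈ L, σ x ≠ x

/-! ### The Tate twists and the Tate–Shafarevich groups -/

/-- The `p`-adic cyclotomic character. -/
noncomputable def cyc (K : Type) [Field K] (p : ℕ) [Fact p.Prime] : Gal K →* ℤ_[p]ˣ :=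
  (cyclotomicCharacter (Bar K) p).comp (MulSemiringAction.toRingAut (Gal K) (Bar K))

/-- The `p`-adic integer by which the element `σ` of the absolute Galois group of `L` acts on
`ℤ_p(r)`, that is, the `r`-th power of the value of the cyclotomic character. -/
noncomputable def tate {K : Type} [Field K] (p : ℕ) [Fact p.Prime]
    {L : IntermediateField K (Bar K)} (r : ℤ) (σ : GalL L) : ℤ_[p] :=
  (((cyc K p (σ : Gal K)) ^ r : ℤ_[p]ˣ) : ℤ_[p])

/-- The continuous cocycles of the absolute Galois group of `L` with values in `ℤ_p(r)`. -/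
structure IsCocycle {K : Type} [Field K] {p : ℕ} [Fact p.Prime]
    {L : IntermediateField K (Bar K)} (r : ℤ) (c : GalL L → ℤ_[p]) : Prop where
  cont : Continuous c
  mul : ∀ σ τ, c (σ * τ) = c σ + tate p r σ * c τ

/-- The restriction of `c` to the subset `S` is a coboundary with values in `ℤ_p(r)`. -/
def TrivialOn {K : Type} [Field K] {p : ℕ} [Fact p.Prime] {L : IntermediateField K (Bar K)}
    (r : ℤ) (S : Set (GalL L)) (c : GalL L → ℤ_[p]) : Prop :=
  ∃ z : ℤ_[p], ∀ σ ∈ S, c σ = (tate p r σ - 1) * z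

/-- The cocycles of the elements of the groups `Ш¹(O_{L,S}, ℤ_p(r))`: they vanish on the inertia
groups of the places prime to `p` (on which the cyclotomic character is trivial), because their
classes are unramified outside `S` and locally trivial at the places of `S`, and their restrictions
to the decomposition groups of the places above `p` are coboundaries. -/
structure InSha {K : Type} [Field K] {p : ℕ} [Fact p.Prime] {L : IntermediateField K (Bar K)}
    (r : ℤ) (c : GalL L → ℤ_[p]) : Prop where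
  away : ∀ Q : Ideal (𝓞 (Bar K)), Q.IsMaximal → (p : 𝓞 (Bar K)) ∉ Q → ∀ σ ∈ Inr L Q, c σ = 0
  above : ∀ Q : Ideal (𝓞 (Bar K)), Q.IsMaximal → (p : 𝓞 (Bar K)) ∈ Q → TrivialOn r (Dec L Q) c

/-- `Ш¹(O_{L,S}, ℤ_p(r)) = 0` for all `S`. -/
def ShaZero {K : Type} [Field K] (p : ℕ) [Fact p.Prime] (L : IntermediateField K (Bar K))
    (r : ℤ) : Prop :=
  ∀ c : GalL L → ℤ_[p], IsCocycle r c → InSha r c → TrivialOn r Set.univ c

/-! ### The theorem -/

theorem result {p : ℕ} [Fact p.Prime] {K : Type} [Field K] [NumberField K] {n : ℕ} (hn : 0 < n)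
    (hz : ∃ z : K, IsPrimitiveRoot z (p ^ n)) (h4 : p = 2 → ∃ i : K, i ^ 2 = -1)
    (hone : ∃! l : HeightOneSpectrum (𝓞 K), (p : 𝓞 K) ∈ l.asIdeal)
    (hcl : ¬ p ∣ classNumber K) {m : ℕ} (hm : 0 < m)
    {B : Set (HeightOneSpectrum (𝓞 K))} (hB : B.Finite) :
    {L : IntermediateField K (Bar K) | IsGalois K L ∧ IsCyclic (L ≃ₐ[K] L) ∧
      Module.finrank K L = p ^ n ∧
      {v : HeightOneSpectrum (𝓞 K) | (p : 𝓞 K) ∉ v.asIdeal ∧ Ramifies L v}.ncard = m ∧
      (∀ v ∈ B, (p : 𝓞 K) ∉ v.asIdeal → ¬ Ramifies L v) ∧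
      ∀ r : ℤ, ShaZero p L r}.Infinite := by
  classical
  obtain ⟨l, hlp, hl⟩ := hone
  have hcop : (classNumber K).Coprime p :=
    ((Fact.out : p.Prime).coprime_iff_not_dvd.2 hcl).symm
  intro hfin
  set F := {L : IntermediateField K (Bar K) | IsGalois K L ∧ IsCyclic (L ≃ₐ[K] L) ∧
      Module.finrank K L = p ^ n ∧
      {v : HeightOneSpectrum (𝓞 K) | (p : 𝓞 K) ∉ v.asIdeal ∧ Ramifies L v}.ncard = m ∧
      (∀ v ∈ B, (p : 𝓞 K) ∉ v.asIdeal → ¬ Ramifies L v) ∧ ∀ r : ℤ, ShaZero p L r} with hF
  let B' : Set (HeightOneSpectrum (𝓞 K)) :=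
    B ∪ ⋃ L ∈ F, {v : HeightOneSpectrum (𝓞 K) | (p : 𝓞 K) ∉ v.asIdeal ∧ Ramifies L v}
  have hB' : B'.Finite := by
    refine hB.union (hfin.biUnion fun L hL => ?_)
    refine Set.finite_of_ncard_pos ?_
    rw [hL.2.2.2.1]
    exact hm
  obtain ⟨L, h1, h2, h3, h4', h5, h6⟩ := Pool.Agent.NH7.Sch.main (K := K) (p := p) hn hz h4
    (fun v hv => hl v hv) hlp hcop hm hB'
  have hram : ∀ v, Pool.Agent.NH7.Sch.Ram L v ↔ Ramifies L v := fun v => Iff.rfl
  have hL : L ∈ F := by
    refine ⟨h1, h2, h3, h4', fun v hv hp => h5 v (Or.inl hv) hp, fun r c hc hs => ?_⟩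
    obtain ⟨z, hz⟩ := h6 r c hc.cont hc.mul (fun Q hQ hpQ σ hσ => hs.away Q hQ hpQ σ hσ)
      (fun Q hQ hpQ => by
        obtain ⟨z, hz⟩ := hs.above Q hQ hpQ
        exact ⟨z, fun σ hσ => hz σ hσ⟩)
    exact ⟨z, fun σ _ => hz σ⟩
  have hne : {v : HeightOneSpectrum (𝓞 K) | (p : 𝓞 K) ∉ v.asIdeal ∧ Ramifies L v}.Nonempty := by
    refine Set.nonempty_of_ncard_ne_zero ?_
    rw [hL.2.2.2.1]
    omega
  obtain ⟨v, hv1, hv2⟩ := hne
  refine h5 v (Or.inr ?_) hv1 ((hram v).2 hv2)
  exact Set.mem_biUnion hL ⟨hv1, hv2⟩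

end Pool.Agent.Results.MP_59f3ad_nt.CyclicOverRegularFields
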