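import Pool.Agent.NH7.GU.All

/-!
# Schneider's conjecture goes up: over every number field with the `p`-th roots of unity there are
infinitely many cyclic extensions of degree `p`, with prescribed completions at finitely many
primes, in which the groups `Ш¹(ℤ_p(r))` do not grow, for all integers `r` at once

Let `p` be a prime number and let `K` be a number field which contains a primitive `p`-th root of
unity (and a square root of `-1` if `p = 2`). There is no condition on the class number of `K` or on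
the primes above `p`. Let `L₀ / K` be cyclic of degree `1` or `p`, and let `B` be a finite set of
primes of `K`, possibly containing all primes above `p`.

Theorem: there are infinitely many cyclic extensions `L / K` of degree `p` such that `L` and `L₀`
have the same completions at the places above each `v` in `B`, and such that for **all** integers `r`

* every element `c` of `Ш¹(O_{L,S}, ℤ_p(r))` satisfies: `p c` is the restriction of an element
  of `Ш¹(O_{K,S}, ℤ_p(r))`; so the two groups have the same rank;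
* if `Ш¹(O_{K,S}, ℤ_p(r)) = 0` then `Ш¹(O_{L,S}, ℤ_p(r)) = 0`: Schneider's conjecture (for `r = 1`:
  Leopoldt's conjecture) goes up from `K` to `L`. (By Schneider and Soulé the hypothesis holds for
  all but finitely many `r`, and for all `r < 0`.)
-/

set_option autoImplicit false

namespace Pool.Agent.Results.MP_59f3ad_nt.GoingUpEveryField

open NumberField IsDedekindDomain
open Pool.Agent.NH7.GU
open Pool.Agent.NH7.Sch (fld_gal fld_fin fld_cyc fld fld_fix kerX mem_kerX)

/-! ### The Galois groups, the decomposition groups and the inertia groups -/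

/-- An algebraic closure of the number field `K`. -/
abbrev Bar (K : Type) [Field K] : Type := AlgebraicClosure K

/-- The absolute Galois group of `K`. -/
abbrev Gal (K : Type) [Field K] : Type := Bar K ≃ₐ[K] Bar K

/-- The absolute Galois group of the field `L` between `K` and its algebraic closure. -/
abbrev GalL {K : Type} [Field K] (L : IntermediateField K (Bar K)) : Type := L.fixingSubgroup

/-- The decomposition group in the absolute Galois group of `L` of the maximal ideal `Q` of the ring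
of all algebraic integers: the `σ` such that `σ Q = Q`. -/
def Dec {K : Type} [Field K] (L : IntermediateField K (Bar K)) (Q : Ideal (𝓞 (Bar K))) :
    Set (GalL L) :=
  {σ | ∀ x : 𝓞 (Bar K), x ∈ Q ↔ (σ : Gal K) • x ∈ Q}

/-- The inertia group: the `σ` such that `σ x` is congruent to `x` modulo `Q` for all `x`. -/
def Inr {K : Type} [Field K] (L : IntermediateField K (Bar K)) (Q : Ideal (𝓞 (Bar K))) :
    Set (GalL L) :=
  {σ | ∀ x : 𝓞 (Bar K), (σ : Gal K) • x - x ∈ Q}

/-- The fields `L` and `L'` have the same completions above the prime `v` of `K`: for every maximal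
ideal `Q` of the ring of all algebraic integers above `v`, an element `σ` of the decomposition group
of `Q` over `K` (the absolute Galois group of the completion `K_v`) fixes `L` if and only if it
fixes `L'`; that is, `L K_v = L' K_v`. -/
def SameCompletions {K : Type} [Field K] (L L' : IntermediateField K (Bar K))
    (v : HeightOneSpectrum (𝓞 K)) : Prop :=
  ∀ Q : Ideal (𝓞 (Bar K)), Q.IsMaximal → Q.comap (algebraMap (𝓞 K) (𝓞 (Bar K))) = v.asIdeal →
    ∀ σ : Gal K, (∀ x : 𝓞 (Bar K), x ∈ Q ↔ σ • x ∈ Q) →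
      ((∀ x ∈ L, σ x = x) ↔ ∀ x ∈ L', σ x = x)

/-! ### The Tate twists and the Tate–Shafarevich groups -/

/-- The `p`-adic cyclotomic character. -/
noncomputable def cyc (K : Type) [Field K] (p : ℕ) [Fact p.Prime] : Gal K →* ℤ_[p]ˣ :=
  (cyclotomicCharacter (Bar K) p).comp (MulSemiringAction.toRingAut (Gal K) (Bar K))

/-- The `p`-adic integer by which the element `σ` of the absolute Galois group of `L` acts on
`ℤ_p(r)`, that is, the `r`-th power of the value of the cyclotomic character. -/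
noncomputable def tate {K : Type} [Field K] (p : ℕ) [Fact p.Prime]
    {L : IntermediateField K (Bar K)} (r : ℤ) (σ : GalL L) : ℤ_[p] :=
  (((cyc K p (σ : Gal K)) ^ r : ℤ_[p]ˣ) : ℤ_[p])

/-- The continuous cocycles of the absolute Galois group of `L` with values in `ℤ_p(r)`. -/
structure IsCocycle {K : Type} [Field K] {p : ℕ} [Fact p.Prime]
    {L : IntermediateField K (Bar K)} (r : ℤ) (c : GalL L → ℤ_[p]) : Prop where
  cont : Continuous c
  mul : ∀ σ τ, c (σ * τ) = c σ + tate p r σ * c τ

/-- The restriction of `c` to the subset `S` is a coboundary with values in `ℤ_p(r)`. -/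
def TrivialOn {K : Type} [Field K] {p : ℕ} [Fact p.Prime] {L : IntermediateField K (Bar K)}
    (r : ℤ) (S : Set (GalL L)) (c : GalL L → ℤ_[p]) : Prop :=
  ∃ z : ℤ_[p], ∀ σ ∈ S, c σ = (tate p r σ - 1) * z

/-- The cocycles of the elements of the groups `Ш¹(O_{L,S}, ℤ_p(r))`: they vanish on the inertia
groups of the places prime to `p` (on which the cyclotomic character is trivial), because their
classes are unramified outside `S` and locally trivial at the places of `S`, and their restrictions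
to the decomposition groups of the places above `p` are coboundaries. -/
structure InSha {K : Type} [Field K] {p : ℕ} [Fact p.Prime] {L : IntermediateField K (Bar K)}
    (r : ℤ) (c : GalL L → ℤ_[p]) : Prop where
  away : ∀ Q : Ideal (𝓞 (Bar K)), Q.IsMaximal → (p : 𝓞 (Bar K)) ∉ Q → ∀ σ ∈ Inr L Q, c σ = 0
  above : ∀ Q : Ideal (𝓞 (Bar K)), Q.IsMaximal → (p : 𝓞 (Bar K)) ∈ Q → TrivialOn r (Dec L Q) c

/-- `Ш¹(O_{L,S}, ℤ_p(r)) = 0` for all `S`. -/
def ShaZero {K : Type} [Field K] (p : ℕ) [Fact p.Prime] (L : IntermediateField K (Bar K))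
    (r : ℤ) : Prop :=
  ∀ c : GalL L → ℤ_[p], IsCocycle r c → InSha r c → TrivialOn r Set.univ c

/-- `p Ш¹(O_{L,S}, ℤ_p(r))` is contained in the image of `Ш¹(O_{K,S}, ℤ_p(r))`: for each cocycle `c`
of an element of the first group there is a cocycle `c'` of an element of the second one such that
`p c` and the restriction of `c'` to the absolute Galois group of `L` differ by a coboundary. -/
def ComesFromBase {K : Type} [Field K] (p : ℕ) [Fact p.Prime] (L : IntermediateField K (Bar K))
    (r : ℤ) : Prop :=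
  ∀ c : GalL L → ℤ_[p], IsCocycle r c → InSha r c →
    ∃ c' : GalL (⊥ : IntermediateField K (Bar K)) → ℤ_[p], IsCocycle r c' ∧ InSha r c' ∧
      ∃ z : ℤ_[p], ∀ (σ : GalL L) (τ : GalL (⊥ : IntermediateField K (Bar K))),
        (τ : Gal K) = (σ : Gal K) → (p : ℤ_[p]) * c σ = c' τ + (tate p r σ - 1) * z

/-! ### The theorem -/

section proof

open Pool.Agent.NH7.Sch Pool.Agent.NH7.GU

variable {p : ℕ} [hp : Fact p.Prime] {K : Type} [Field K] [NumberField K]

/-- the homomorphism which cuts out `L₀` -/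
theorem exists_hm (L₀ : IntermediateField K (Bar K))
    (h₀ : L₀ = ⊥ ∨ (IsGalois K L₀ ∧ Module.finrank K L₀ = p)) :
    ∃ χ₀ : Gal K → ZMod p, Hm p χ₀ ∧ ∀ σ : Gal K, χ₀ σ = 0 ↔ ∀ x ∈ L₀, σ x = x := by
  rcases h₀ with rfl | ⟨hgal, hdeg⟩
  · refine ⟨0, Hm.zero, fun σ => ⟨fun _ x hx => ?_, fun _ => rfl⟩⟩
    obtain ⟨y, rfl⟩ := IntermediateField.mem_bot.1 hx
    exact σ.commutes y
  · have : NeZero p := ⟨hp.out.ne_zero⟩
    have hfd : FiniteDimensional K L₀ := FiniteDimensional.of_finrank_pos (by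
      rw [hdeg]
      exact hp.out.pos)
    have hcard : Nat.card (L₀ ≃ₐ[K] L₀) = p := by
      rw [IsGalois.card_aut_eq_finrank, hdeg]
    have hcyc : IsCyclic (L₀ ≃ₐ[K] L₀) := isCyclic_of_prime_card hcard
    have hcard' : Nat.card (Multiplicative (ZMod p)) = p := by
      rw [Nat.card_congr Multiplicative.toAdd, Nat.card_zmod]
    let e : (L₀ ≃ₐ[K] L₀) ≃* Multiplicative (ZMod p) :=
      mulEquivOfPrimeCardEq (p := p) hcard hcard'
    let r := AlgEquiv.restrictNormalHom (F := K) (K₁ := AlgebraicClosure K) L₀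
    have hr : ∀ σ : Gal K, r σ = 1 ↔ ∀ x ∈ L₀, σ x = x := by
      intro h
      constructor
      · intro h1 x hx
        have h2 := AlgEquiv.restrictNormal_commutes h L₀ ⟨x, hx⟩
        have h3 : h.restrictNormal L₀ = 1 := h1
        rw [h3] at h2
        exact h2.symm
      · intro h1
        ext x
        have h2 := AlgEquiv.restrictNormal_commutes h L₀ x
        exact h2.trans (h1 x x.2)
    have hker : ∀ σ : Gal K, (e (r σ)).toAdd = 0 ↔ ∀ x ∈ L₀, σ x = x := by
      intro σ
      rw [← hr σ, toAdd_eq_zero, map_eq_one_iff e e.injective]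
    have hmul : ∀ g h : Gal K, (e (r (g * h))).toAdd = (e (r g)).toAdd + (e (r h)).toAdd := by
      intro g h
      rw [map_mul, map_mul, toAdd_mul]
    refine ⟨fun σ => (e (r σ)).toAdd, ⟨?_, hmul⟩, hker⟩
    have hopen : IsOpen (L₀.fixingSubgroup : Set (Gal K)) := L₀.fixingSubgroup_isOpen
    refine cont_of_open hmul hopen (one_mem _) fun g hg => ?_
    rw [hker]
    exact (IntermediateField.mem_fixingSubgroup_iff _ _).1 hg

end proof

theorem result {p : ℕ} [Fact p.Prime] {K : Type} [Field K] [NumberField K]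
    (hz : ∃ z : K, IsPrimitiveRoot z p) (h4 : p = 2 → ∃ i : K, i ^ 2 = -1)
    (L₀ : IntermediateField K (Bar K))
    (h₀ : L₀ = ⊥ ∨ (IsGalois K L₀ ∧ Module.finrank K L₀ = p))
    {B : Set (HeightOneSpectrum (𝓞 K))} (hB : B.Finite) :
    {L : IntermediateField K (Bar K) | IsGalois K L ∧ IsCyclic (L ≃ₐ[K] L) ∧
      Module.finrank K L = p ∧ (∀ v ∈ B, SameCompletions L L₀ v) ∧
      ∀ r : ℤ, ComesFromBase p L r ∧
        (ShaZero p (⊥ : IntermediateField K (Bar K)) r → ShaZero p L r)}.Infinite := by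
  classical
  obtain ⟨ζ, hζ⟩ := hz
  obtain ⟨χ₀, h0, hχ₀⟩ := exists_hm L₀ h₀
  intro hfin
  set F := {L : IntermediateField K (Bar K) | IsGalois K L ∧ IsCyclic (L ≃ₐ[K] L) ∧
      Module.finrank K L = p ∧ (∀ v ∈ B, SameCompletions L L₀ v) ∧
      ∀ r : ℤ, ComesFromBase p L r ∧
        (ShaZero p (⊥ : IntermediateField K (Bar K)) r → ShaZero p L r)} with hF
  -- the ramified primes of the fields in `F`
  have hram : ∀ L : IntermediateField K (Bar K), ∃ T : Finset (HeightOneSpectrum (𝓞 K)),
      L ∈ F → ∀ v ∉ T, ∀ g ∈ Pool.Agent.NH7.Sch.Inr (Qv v), ∀ x ∈ L, g x = x := by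
    intro L
    by_cases hL : L ∈ F
    · obtain ⟨x, hx, hxL⟩ := exists_hm (p := p) L (Or.inr ⟨hL.1, hL.2.2.1⟩)
      obtain ⟨T, hT⟩ := fin_ram hζ hx
      exact ⟨T, fun _ v hv g hg => (hxL g).1 (hT v hv g hg)⟩
    · exact ⟨∅, fun h => absurd h hL⟩
  choose T hT using hram
  let B' : Set (HeightOneSpectrum (𝓞 K)) := B ∪ ⋃ L ∈ F, (T L : Set (HeightOneSpectrum (𝓞 K)))
  have hB' : B'.Finite := hB.union (hfin.biUnion fun L _ => (T L).finite_toSet)
  obtain ⟨χ, hχc, hm, ⟨σ, hσ⟩, hloc, ⟨v, hv, -, g, hg, hg0⟩, hmain⟩ :=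
    main_sha hζ h4 s_cyl s_cnj t_frv s_cls t_loop t_cmp t_van hB' h0
  have hgal := fld_gal hχc hm
  have hfd := fld_fin hχc hm
  obtain ⟨hcyc, hcard⟩ := fld_cyc hχc hm hσ
  have hfix : (fld hm).fixingSubgroup = kerX hm := fld_fix hχc hm
  have hmem : ∀ g : Gal K, χ g = 0 ↔ ∀ x ∈ fld hm, g x = x := by
    intro g
    rw [← IntermediateField.mem_fixingSubgroup_iff, hfix, mem_kerX]
  have hk : ∀ x : kerX hm, (x : Gal K) ∈ (fld hm).fixingSubgroup := fun x => by
    rw [hfix]
    exact x.2
  have hL : fld hm ∈ F := by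
    refine ⟨hgal, ⟨_, hcyc⟩, ?_, fun w hw Q hQ hQw s hs => ?_, fun r => ⟨?_, ?_⟩⟩
    · rw [← IsGalois.card_aut_eq_finrank, hcard]
    · rw [← hmem, ← hχ₀, hloc w (Or.inl hw) Q hQ hQw s hs]
    · intro c hc hs
      have h1 : ShaK p r (kerX hm) fun x => c ⟨x, hk x⟩ := by
        refine ⟨hc.cont.comp (Continuous.subtype_mk continuous_subtype_val _),
          fun s t => hc.mul ⟨s, hk s⟩ ⟨t, hk t⟩, fun Q hQ hpQ s hs' => hs.away Q hQ hpQ _ hs', fun Q hQ hpQ => ?_⟩
        obtain ⟨z, hz⟩ := hs.above Q hQ hpQ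
        exact ⟨z, fun s hs' => hz _ hs'⟩
      obtain ⟨c', hc', z, hz⟩ := (hmain r).1 _ h1
      refine ⟨fun x => c' ⟨x, Subgroup.mem_top _⟩, ⟨hc'.cont.comp
          (Continuous.subtype_mk continuous_subtype_val _),
          fun s t => hc'.mul ⟨s, Subgroup.mem_top _⟩ ⟨t, Subgroup.mem_top _⟩⟩,
        ⟨fun Q hQ hpQ s hs' => hc'.away Q hQ hpQ _ hs', fun Q hQ hpQ => ?_⟩, z,
        fun s t hst => hz ⟨s, by rw [← hfix]; exact s.2⟩ ⟨t, Subgroup.mem_top _⟩ hst⟩
      obtain ⟨y, hy⟩ := hc'.above Q hQ hpQ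
      exact ⟨y, fun s hs' => hy _ hs'⟩
    · intro hK c hc hs
      have h1 : ShaK p r (kerX hm) fun x => c ⟨x, hk x⟩ := by
        refine ⟨hc.cont.comp (Continuous.subtype_mk continuous_subtype_val _),
          fun s t => hc.mul ⟨s, hk s⟩ ⟨t, hk t⟩, fun Q hQ hpQ s hs' => hs.away Q hQ hpQ _ hs', fun Q hQ hpQ => ?_⟩
        obtain ⟨z, hz⟩ := hs.above Q hQ hpQ
        exact ⟨z, fun s hs' => hz _ hs'⟩
      have hbot : ∀ s : Gal K, s ∈ (⊥ : IntermediateField K (Bar K)).fixingSubgroup := by
        intro s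
        rw [IntermediateField.fixingSubgroup_bot]
        exact Subgroup.mem_top s
      obtain ⟨z, hz⟩ := (hmain r).2 (fun c' hc' => by
        obtain ⟨z, hz⟩ := hK (fun x => c' ⟨x, Subgroup.mem_top _⟩)
          ⟨hc'.cont.comp (Continuous.subtype_mk continuous_subtype_val _),
            fun s t => hc'.mul ⟨s, Subgroup.mem_top _⟩ ⟨t, Subgroup.mem_top _⟩⟩
          ⟨fun Q hQ hpQ s hs' => hc'.away Q hQ hpQ _ hs', fun Q hQ hpQ => by
            obtain ⟨y, hy⟩ := hc'.above Q hQ hpQ
            exact ⟨y, fun s hs' => hy _ hs'⟩⟩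
        exact ⟨z, fun s => hz ⟨s, hbot s⟩ (Set.mem_univ _)⟩) _ h1
      exact ⟨z, fun s _ => hz ⟨s, by rw [← hfix]; exact s.2⟩⟩
  refine hg0 ((hmem g).2 (hT _ hL v (fun h => hv (Or.inr ?_)) g hg))
  exact Set.mem_biUnion hL h

end Pool.Agent.Results.MP_59f3ad_nt.GoingUpEveryField
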