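import Mathlib
import Pool.Agent.NH57.SQ.Den
import Pool.Agent.NH57.SQ.Den8
import Pool.Agent.NH57.SQ.DenM
import Pool.Agent.NH57.SQ.Multi
import Pool.Agent.NH57.SQ.Sq2
import Pool.Agent.NH57.SQ.DIO
import Pool.Agent.NH57.SQ.Card
import Pool.Agent.NH57.SQ.NFl
import Pool.Agent.NH3.XT.Law
import Pool.Agent.NH4.XG.Fin
import Pool.Agent.NH5.PR.ETA

/-!
# Schneider's conjecture for `p = 2` and all twists, a positive proportion of the quadratic and of the
multiquadratic fields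

Let `m_1, …, m_n > 1` be squarefree and pairwise coprime. Suppose that no product `m_S` of some of them
is congruent to `7` modulo `8`, and that the class groups of the imaginary quadratic fields `ℚ(√(-m_S))`,
`S ≠ ∅`, have no element of order four (`Good m`). Then `Ш¹(O_{L,S}, ℤ_2(r))` is zero for **all**
integers `r ≠ 0`, all `S` and **all** subfields `L` of `ℚ(i, √m_1, …, √m_n)`.

If `m` is good then in each union of residue classes which is allowed by the congruences the proportion of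
the squarefree `D < 0` (ordered by `|D|`) such that `(m_1, …, m_n, |D|)` is good exists and is equal to
`η ^ (2 ^ n)`, `η = ∏ (1 - 2^{-i}) = 0.28878…`. For `n = 0` this is the case of the quadratic fields.

For a quadratic field `ℚ(√d)` such that `ℚ(√(-|d|))` has no ideal class of order four the same is true
for all `r` except those for which `(-1) ^ r d` is negative and congruent to `1` modulo `8`.
-/

set_option autoImplicit false

open scoped Classical

namespace Pool.Agent.Results.MP_59f3ad_nt.PositiveProportionQuadratic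

open Filter Topology

/-! ### The Galois groups -/

/-- An algebraic closure of `ℚ`. -/
abbrev QBar : Type := AlgebraicClosure ℚ

/-- The absolute Galois group of `ℚ`. -/
abbrev Gal : Type := QBar ≃ₐ[ℚ] QBar

/-- The absolute Galois group of the subfield `L` of `ℚ̄`. -/
abbrev GalL (L : IntermediateField ℚ QBar) : Type := ↥L.fixingSubgroup

/-! ### The Tate twists and the Tate–Shafarevich groups -/

/-- The `2`-adic cyclotomic character. -/
noncomputable def cyc : Gal →* ℤ_[2]ˣ :=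
  (cyclotomicCharacter QBar 2).comp (MulSemiringAction.toRingAut Gal QBar)

/-- The `2`-adic integer by which the element `σ` of the absolute Galois group of `L` acts on
`ℤ_2(r)`, that is, the `r`-th power of the value of the cyclotomic character. -/
noncomputable def tate {L : IntermediateField ℚ QBar} (r : ℤ) (σ : GalL L) : ℤ_[2] :=
  (((cyc (σ : Gal)) ^ r : ℤ_[2]ˣ) : ℤ_[2])

/-- The decomposition group of the place of `L` given by the embedding `ι` of `ℚ̄`. -/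
def Dec {L : IntermediateField ℚ QBar} {p : ℕ} [Fact p.Prime] (ι : QBar →ₐ[ℚ] PadicAlgCl p) :
    Set (GalL L) :=
  {σ | ∃ τ : PadicAlgCl p ≃ₐ[ℚ_[p]] PadicAlgCl p, ∀ x, τ (ι x) = ι ((σ : Gal) x)}

/-- Its inertia group: the automorphisms which are trivial on the residue field. -/
def Inr {L : IntermediateField ℚ QBar} {p : ℕ} [Fact p.Prime] (ι : QBar →ₐ[ℚ] PadicAlgCl p) :
    Set (GalL L) :=
  {σ | ∃ τ : PadicAlgCl p ≃ₐ[ℚ_[p]] PadicAlgCl p, (∀ x, τ (ι x) = ι ((σ : Gal) x)) ∧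
    ∀ z : PadicAlgCl p, ‖z‖ ≤ 1 → ‖τ z - z‖ < 1}

/-- The continuous cocycles of the absolute Galois group of `L` with values in `ℤ_2(r)`. -/
structure IsCocycle {L : IntermediateField ℚ QBar} (r : ℤ) (c : GalL L → ℤ_[2]) : Prop where
  cont : Continuous c
  mul : ∀ σ τ, c (σ * τ) = c σ + tate r σ * c τ

/-- The restriction of `c` to the subset `S` is a coboundary with values in `ℤ_2(r)`. -/
def TrivialOn {L : IntermediateField ℚ QBar} (r : ℤ) (S : Set (GalL L)) (c : GalL L → ℤ_[2]) :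
    Prop :=
  ∃ z : ℤ_[2], ∀ σ ∈ S, c σ = (tate r σ - 1) * z

/-- The cocycles of the elements of the groups `Ш¹(O_{L,S}, ℤ_2(r))`: they vanish on the inertia
groups of the places prime to `2` (on which the cyclotomic character is trivial), because their
classes are unramified outside `S` and locally trivial at the places of `S`, and their restrictions
to the decomposition groups of the places above `2` are coboundaries. -/
structure InSha {L : IntermediateField ℚ QBar} (r : ℤ) (c : GalL L → ℤ_[2]) : Prop where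
  odd : ∀ (p : ℕ) [Fact p.Prime] (ι : QBar →ₐ[ℚ] PadicAlgCl p), p ≠ 2 → ∀ σ ∈ Inr ι, c σ = 0
  two : ∀ ι : QBar →ₐ[ℚ] PadicAlgCl 2, TrivialOn r (Dec ι) c

/-- `Ш¹(O_{L,S}, ℤ_2(r)) = 0` for all `S`. -/
def ShaZero (L : IntermediateField ℚ QBar) (r : ℤ) : Prop :=
  ∀ c : GalL L → ℤ_[2], IsCocycle r c → InSha r c → TrivialOn r Set.univ c

/-- `Ш¹(O_{L,S}, ℤ_2(r)) = 0` for all `r ≠ 0`, all `S` and all subfields `L` of the field `F`. -/
def SchneiderBelow (F : IntermediateField ℚ QBar) : Prop :=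
  ∀ L : IntermediateField ℚ QBar, L ≤ F → ∀ r : ℤ, r ≠ 0 → ShaZero L r

/-- `Ш¹(O_{L,S}, ℤ_2(r)) = 0` for all `r ≠ 0`, all `S` and all subfields `L` of
`ℚ(i, √m_1, …, √m_n)`. -/
def SchneiderMulti {n : ℕ} (m : Fin n → ℕ) : Prop :=
  ∀ (i : QBar) (s : Fin n → QBar), i ^ 2 = -1 → (∀ j, s j ^ 2 = (m j : QBar)) →
    SchneiderBelow (IntermediateField.adjoin ℚ ({i} ∪ Set.range s))

/-- `Ш¹(O_{L,S}, ℤ_2(r)) = 0` for `L = ℚ(√d)`, all `S` and all `r ≠ 0` except those for which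
`(-1) ^ r d` is negative and congruent to `1` modulo `8`. -/
def SchneiderQuadratic (d : ℤ) : Prop :=
  ∀ t : QBar, t ^ 2 = (d : QBar) → ∀ r : ℤ, r ≠ 0 →
    (Even r → ¬ (d < 0 ∧ d % 8 = 1)) → (Odd r → ¬ (0 < d ∧ d % 8 = 7)) →
      ShaZero (IntermediateField.adjoin ℚ {t}) r

/-! ### The family -/

/-- The class group of `ℚ(√D)` has no element of order four. -/
def NoFour (D : ℤ) : Prop :=
  ∀ (K : Type) [Field K] [NumberField K], Module.finrank ℚ K = 2 → (∃ a : K, a ^ 2 = (D : K)) →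
    ∀ c : ClassGroup (NumberField.RingOfIntegers K), c ^ 4 = 1 → c ^ 2 = 1

/-- The conditions on `m_1, …, m_n`: they are squarefree, pairwise coprime and not `1`, no product
`m_S` of some of them is congruent to `7` modulo `8` and the class groups of the fields `ℚ(√(-m_S))`,
`S ≠ ∅`, have no element of order four. -/
structure Good {n : ℕ} (m : Fin n → ℕ) : Prop where
  one_lt : ∀ i, 1 < m i
  squarefree : ∀ i, Squarefree (m i)
  coprime : ∀ i j, i ≠ j → Nat.Coprime (m i) (m j)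
  residue : ∀ S : Finset (Fin n), (∏ i ∈ S, m i) % 8 ≠ 7
  noFour : ∀ S : Finset (Fin n), S.Nonempty → NoFour (-((∏ i ∈ S, m i : ℕ) : ℤ))

/-- The number of the squarefree integers `D < 0`, `|D| ≤ X`, with the property `P`. -/
noncomputable def number (P : ℤ → Prop) (X : ℕ) : ℝ :=
  (((Finset.Icc (-(X : ℤ)) (-1)).filter fun D : ℤ => Squarefree D ∧ P D).card : ℝ)

/-- `∏ (1 - 2^{-i}) = 0.28878…`. -/
noncomputable def density : ℝ := ∏' i : ℕ, (1 - (1 / 2 : ℝ) ^ (i + 1))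

/-! ### The proof -/

section proof

open Pool.Agent.NH57.SQ (VanH OkE g_multi g_quad okE_gen onlyS_gen dio_gen t_CARD nf_gen exists_K
  den denM low_all)
open Pool.Agent.NH3.XT (t_SQ2 t_LAW)
open Pool.Agent.NH4.XG (nx f_XGDEN)
open Pool.Agent.R384 (vl)

theorem fix_of {S : Set QBar} {L : IntermediateField ℚ QBar}
    (hL : L ≤ IntermediateField.adjoin ℚ S) {σ : Gal} (h : ∀ y ∈ S, σ y = y) :
    σ ∈ L.fixingSubgroup := by
  rw [IntermediateField.mem_fixingSubgroup_iff]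
  intro x hx
  have h3 : IntermediateField.adjoin ℚ S ≤
      IntermediateField.fixedField (Subgroup.zpowers σ) := by
    rw [IntermediateField.adjoin_le_iff]
    intro y hy
    show y ∈ IntermediateField.fixedField (Subgroup.zpowers σ)
    rw [IntermediateField.mem_fixedField_iff]
    intro τ hτ
    obtain ⟨k, rfl⟩ := hτ
    have h4 : σ ∈ MulAction.stabilizer Gal y := h y hy
    exact (MulAction.stabilizer Gal y).zpow_mem h4 k
  exact (IntermediateField.mem_fixedField_iff _ x).1 (h3 (hL hx)) σ (Subgroup.mem_zpowers σ)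

theorem sha_of {L : IntermediateField ℚ QBar} {r : ℤ}
    (h : VanH L.fixingSubgroup (Pool.Agent.NH57.SQ.cyc ^ r) ∧
      ∀ ι : QBar →ₐ[ℚ] PadicAlgCl 2, ∃ σ ∈ Pool.Agent.NH57.SQ.DD ι, σ ∈ L.fixingSubgroup ∧
        vl (Pool.Agent.NH57.SQ.cyc ^ r) σ ≠ 1) : ShaZero L r := by
  intro c hc hsha
  obtain ⟨hvan, hnt⟩ := h
  set χ : Gal →* ℤ_[2]ˣ := Pool.Agent.NH57.SQ.cyc ^ r with hχ
  have htate : ∀ σ : GalL L, vl χ (σ : Gal) = ((tate r σ : ℤ_[2]) : ℚ_[2]) := fun σ => rfl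
  set c' : Gal → ℚ_[2] := fun σ => if h : σ ∈ L.fixingSubgroup then ((c ⟨σ, h⟩ : ℤ_[2]) : ℚ_[2])
    else 0 with hc'
  have hval : ∀ σ : GalL L, c' (σ : Gal) = ((c σ : ℤ_[2]) : ℚ_[2]) := by
    intro σ
    rw [hc']
    exact dif_pos σ.2
  have g1 : ContinuousOn c' (L.fixingSubgroup : Set Gal) := by
    rw [continuousOn_iff_continuous_domRestrict]
    have e : (↑(L.fixingSubgroup) : Set Gal).domRestrict c' =
        fun σ => ((c σ : ℤ_[2]) : ℚ_[2]) := by
      funext σ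
      exact hval σ
    rw [e]
    exact continuous_subtype_val.comp hc.cont
  have g2 : ∀ σ ∈ L.fixingSubgroup, ∀ τ ∈ L.fixingSubgroup,
      c' (σ * τ) = c' σ + vl χ σ * c' τ := by
    intro σ hσ τ hτ
    have h1 := hc.mul ⟨σ, hσ⟩ ⟨τ, hτ⟩
    have h2 := hval (⟨σ, hσ⟩ * ⟨τ, hτ⟩)
    have h3 : c' (σ * τ) = ((c (⟨σ, hσ⟩ * ⟨τ, hτ⟩) : ℤ_[2]) : ℚ_[2]) := h2
    rw [h3, h1, hval ⟨σ, hσ⟩, hval ⟨τ, hτ⟩, htate ⟨σ, hσ⟩]
    push_cast
    rfl
  obtain ⟨y, hy⟩ := hvan c' ⟨g1, g2⟩ (fun p _ κ hp => ⟨0, fun σ hσ => by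
      rw [mul_zero, hval ⟨σ, hσ.2⟩, hsha.odd p κ hp ⟨σ, hσ.2⟩ hσ.1]
      rfl⟩) (fun κ => by
      obtain ⟨z, hz⟩ := hsha.two κ
      refine ⟨(z : ℚ_[2]), fun σ hσ => ?_⟩
      rw [hval ⟨σ, hσ.2⟩, hz ⟨σ, hσ.2⟩ hσ.1, htate ⟨σ, hσ.2⟩]
      push_cast
      rfl)
  -- the integrality
  have halg : Algebra.IsAlgebraic ℚ QBar := AlgebraicClosure.isAlgebraic ℚ
  let ι : QBar →ₐ[ℚ] PadicAlgCl 2 := IsAlgClosed.lift
  obtain ⟨z, hz⟩ := hsha.two ι
  obtain ⟨σ, h1, h4, h3⟩ := hnt ι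
  have h5 := hz ⟨σ, h4⟩ h1
  have h6 := hy σ h4
  rw [hval ⟨σ, h4⟩, h5, htate ⟨σ, h4⟩] at h6
  push_cast at h6
  have h7 : ((tate r (⟨σ, h4⟩ : GalL L) : ℤ_[2]) : ℚ_[2]) - 1 ≠ 0 := by
    intro h
    exact h3 (by rw [htate ⟨σ, h4⟩]; exact sub_eq_zero.1 h)
  have hyz : y = (z : ℚ_[2]) := (mul_left_cancel₀ h7 h6).symm
  refine ⟨z, fun σ _ => ?_⟩
  have h8 := hy (σ : Gal) σ.2
  rw [hval, hyz, htate] at h8
  have h9 : ((c σ : ℤ_[2]) : ℚ_[2]) = (((tate r σ - 1) * z : ℤ_[2]) : ℚ_[2]) := by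
    rw [h8]
    push_cast
    rfl
  exact Subtype.ext h9

theorem okE_of {D : ℤ} (h0 : D < 0) (hs : Squarefree D) (h1 : D ≠ -1) (h8 : D % 8 ≠ 1)
    (hn : nx D.natAbs.primeFactors = 2) : OkE D ∧ OkE (-D) := by
  obtain ⟨g5, g6⟩ := t_CARD D h0 hs
  rw [hn] at g6
  exact okE_gen h0 hs h1 h8 g5 (by rw [g6]; norm_num)

theorem okE_pos {D : ℤ} (h0 : D < 0) (hs : Squarefree D) (h1 : D ≠ -1)
    (hn : nx D.natAbs.primeFactors = 2) : OkE (-D) := by
  obtain ⟨g5, g6⟩ := t_CARD D h0 hs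
  rw [hn] at g6
  have g7 : (Pool.Agent.NH3.XT.AS D ×ˢ Pool.Agent.NH3.XT.CS D).ncard = 4 := by rw [g6]; norm_num
  by_cases h7 : D % 8 = 7
  · exact Or.inr ⟨by omega, onlyS_gen h0 hs h1 h7 g5 g7⟩
  · exact Or.inl ⟨by omega, (dio_gen t_SQ2 h0 hs h1 g5 g7).2⟩

theorem four_iff {D : ℤ} (h0 : D < 0) (hs : Squarefree D) (h1 : D ≠ -1) :
    NoFour D ↔ nx D.natAbs.primeFactors = 2 := by
  constructor
  · intro h
    obtain ⟨K, _, _, hK, ha⟩ := exists_K D h0 hs
    exact (nf_gen D h0 hs h1 K hK ha).1 (h K hK ha)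
  · intro h K _ _ hK ha
    exact (nf_gen D h0 hs h1 K hK ha).2 h

/-- the criterion for one quadratic field -/
theorem quad_of {d : ℤ} (hs : Squarefree d) (h1 : d ≠ 1) (h2 : d ≠ -1) (h4 : NoFour (-|d|)) :
    SchneiderQuadratic d := by
  have hd0 : d ≠ 0 := hs.ne_zero
  have h0 : -|d| < 0 := by
    have := abs_pos.2 hd0
    omega
  have hsD : Squarefree (-|d|) := by
    rw [← Int.squarefree_natAbs, Int.natAbs_neg, Int.natAbs_abs, Int.squarefree_natAbs]
    exact hs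
  have hne : -|d| ≠ -1 := by
    intro h
    have h3 : |d| = 1 := by omega
    rcases (abs_eq one_pos.le).1 h3 with h5 | h5
    · exact h1 h5
    · exact h2 h5
  have hn := (four_iff h0 hsD hne).1 h4
  have hpos := okE_pos h0 hsD hne hn
  rw [neg_neg] at hpos
  have hneg : -|d| % 8 ≠ 1 → OkE (-|d|) := fun h => (okE_of h0 hsD hne h hn).1
  intro t ht r hr hev hod
  refine sha_of (g_quad hr ⟨hs, fun h => Or.inr ⟨h1, ?_⟩, fun h => Or.inr ⟨h2, ?_⟩⟩ ht
    fun σ hσ => fix_of le_rfl fun y hy => ?_)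
  · have h6 := hev h
    rcases lt_or_gt_of_ne hd0 with h7 | h7
    · rw [abs_of_neg h7, neg_neg] at hneg
      exact hneg fun h8 => h6 ⟨h7, h8⟩
    · rwa [abs_of_pos h7] at hpos
  · have h6 := hod h
    rcases lt_or_gt_of_ne hd0 with h7 | h7
    · rwa [abs_of_neg h7] at hpos
    · rw [abs_of_pos h7] at hneg
      exact hneg fun h8 => h6 ⟨h7, by omega⟩
  · rw [Set.mem_singleton_iff.1 hy]
    exact hσ

theorem law {q : ℕ} {P : ℤ → Prop} (hq : 0 < q)
    (hper : ∀ D D' : ℤ, D ≡ D' [ZMOD q] → (P D ↔ P D'))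
    (hex : ∃ D : ℤ, D < 0 ∧ Squarefree D ∧ P D) (hP : ¬ P (-1)) :
    Tendsto (fun X : ℕ => number (fun D => P D ∧ NoFour D) X / number P X) atTop (𝓝 density) ∧
    ∃ (c : ℝ) (X₀ : ℕ), 0 < c ∧ ∀ X : ℕ, X₀ ≤ X → c * X ≤ number P X := by
  obtain ⟨h1, h2⟩ := den t_LAW f_XGDEN hq hper hex
  refine ⟨h1.congr fun X => ?_, h2⟩
  refine congrArg (· / number P X) (Pool.Agent.NH57.SQ.cneg_congr fun D h0 hs =>
    and_congr_right fun hPD => (four_iff h0 hs ?_).symm)
  rintro rfl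
  exact hP hPD

theorem prod_sqf {n : ℕ} {m : Fin n → ℕ} (hsq : ∀ i, Squarefree (m i))
    (hc : ∀ i j, i ≠ j → Nat.Coprime (m i) (m j)) (S : Finset (Fin n)) :
    Squarefree (∏ i ∈ S, m i) := by
  induction S using Finset.induction_on with
  | empty => exact squarefree_one
  | insert j S hj ih =>
    rw [Finset.prod_insert hj]
    refine (Nat.squarefree_mul ?_).2 ⟨hsq j, ih⟩
    refine Nat.Coprime.prod_right fun i hi => hc j i ?_
    rintro rfl
    exact hj hi

theorem prod_gt {n : ℕ} {m : Fin n → ℕ} (h1 : ∀ i, 1 < m i) {S : Finset (Fin n)}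
    (hS : S.Nonempty) : 1 < ∏ i ∈ S, m i := by
  obtain ⟨j, hj⟩ := hS
  rw [← Finset.mul_prod_erase S m hj]
  have h2 : ∏ i ∈ S.erase j, m i ≠ 0 := Pool.Agent.NH57.SQ.prod_ne h1 _
  have h3 := h1 j
  have h4 : 1 ≤ ∏ i ∈ S.erase j, m i := by omega
  calc 1 < m j * 1 := by omega
    _ ≤ _ := Nat.mul_le_mul_left _ h4

/-- the criterion -/
theorem multi_of {n : ℕ} {m : Fin n → ℕ} (h : Good m) : SchneiderMulti m := by
  intro i s hi hs L hL r hr
  refine sha_of (g_multi hr (m := m) (fun S hS => ?_) hi hs fun σ h1 h2 => fix_of hL fun y hy => ?_)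
  · have h1 := prod_gt h.one_lt hS
    have h2 : Squarefree (-((∏ i ∈ S, m i : ℕ) : ℤ)) := by
      rw [← Int.squarefree_natAbs, Int.natAbs_neg, Int.natAbs_natCast]
      exact prod_sqf h.squarefree h.coprime S
    have h3 := h.residue S
    have h4 := (four_iff (by omega) h2 (by omega)).1 (h.noFour S hS)
    obtain ⟨h5, h6⟩ := okE_of (by omega) h2 (by omega) (by omega) h4
    rw [neg_neg] at h6
    exact ⟨h2, h1, h5, h6⟩
  · rcases hy with hy | ⟨j, rfl⟩
    · rw [Set.mem_singleton_iff.1 hy]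
      exact h1
    · exact h2 j

theorem prod_snoc {n : ℕ} (m : Fin n → ℕ) (a : ℕ) (T : Finset (Fin (n + 1))) :
    ∏ i ∈ T, (Fin.snoc m a : Fin (n + 1) → ℕ) i =
      (∏ i ∈ Finset.univ.filter fun i : Fin n => i.castSucc ∈ T, m i) *
        if Fin.last n ∈ T then a else 1 := by
  have h1 : ∏ i ∈ T, (Fin.snoc m a : Fin (n + 1) → ℕ) i =
      ∏ i : Fin (n + 1), if i ∈ T then (Fin.snoc m a : Fin (n + 1) → ℕ) i else 1 := by
    rw [Finset.prod_ite_mem, Finset.univ_inter]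
  rw [h1, Fin.prod_univ_castSucc, Finset.prod_filter]
  simp only [Fin.snoc_castSucc, Fin.snoc_last]

/-- the next integer -/
theorem good_snoc {n : ℕ} {m : Fin n → ℕ} (h : Good m) {D : ℤ} (h0 : D < 0) (hs : Squarefree D)
    (h1 : D ≠ -1) (hc : ∀ i, Nat.Coprime D.natAbs (m i))
    (h8 : ∀ S : Finset (Fin n), (D.natAbs * ∏ i ∈ S, m i) % 8 ≠ 7)
    (h4 : ∀ S : Finset (Fin n), NoFour (D * ((∏ i ∈ S, m i : ℕ) : ℤ))) :
    Good (Fin.snoc m D.natAbs : Fin (n + 1) → ℕ) where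
  one_lt := by
    intro i
    refine Fin.lastCases ?_ (fun j => ?_) i
    · rw [Fin.snoc_last]; omega
    · rw [Fin.snoc_castSucc]; exact h.one_lt j
  squarefree := by
    intro i
    refine Fin.lastCases ?_ (fun j => ?_) i
    · rw [Fin.snoc_last]; exact Int.squarefree_natAbs.2 hs
    · rw [Fin.snoc_castSucc]; exact h.squarefree j
  coprime := by
    intro i j
    refine Fin.lastCases ?_ (fun i' => ?_) i <;> refine Fin.lastCases ?_ (fun j' => ?_) j
    · intro hij; exact absurd rfl hij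
    · intro _; rw [Fin.snoc_last, Fin.snoc_castSucc]; exact hc j'
    · intro _; rw [Fin.snoc_last, Fin.snoc_castSucc]; exact (hc i').symm
    · intro hij
      rw [Fin.snoc_castSucc, Fin.snoc_castSucc]
      exact h.coprime i' j' fun h => hij (by rw [h])
  residue := by
    intro T
    rw [prod_snoc]
    split_ifs with hT
    · rw [mul_comm]; exact h8 _
    · rw [mul_one]; exact h.residue _
  noFour := by
    intro T hT
    rw [prod_snoc]
    split_ifs with hl
    · have e : (-(((∏ i ∈ Finset.univ.filter fun i : Fin n => i.castSucc ∈ T, m i) * D.natAbs :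
          ℕ) : ℤ)) = D * ((∏ i ∈ Finset.univ.filter fun i : Fin n => i.castSucc ∈ T, m i : ℕ) : ℤ) := by
        have e1 : ((D.natAbs : ℕ) : ℤ) = -D := by omega
        rw [Nat.cast_mul, e1]
        ring
      rw [e]
      exact h4 _
    · rw [mul_one]
      refine h.noFour _ ?_
      obtain ⟨x, hx⟩ := hT
      refine Fin.lastCases (motive := fun x => x ∈ T → _) (fun hx => absurd hx hl)
        (fun j hj => ⟨j, Finset.mem_filter.2 ⟨Finset.mem_univ j, hj⟩⟩) x hx

theorem lawM {n : ℕ} {m : Fin n → ℕ} (h : Good m) {q : ℕ} {P : ℤ → Prop} (hq : 0 < q)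
    (hper : ∀ D D' : ℤ, D ≡ D' [ZMOD q] → (P D ↔ P D'))
    (hex : ∃ D : ℤ, D < 0 ∧ Squarefree D ∧ P D) (hP1 : ¬ P (-1))
    (hc : ∀ D : ℤ, P D → ∀ i, Nat.Coprime D.natAbs (m i))
    (h8 : ∀ D : ℤ, P D → ∀ S : Finset (Fin n), (D * ((∏ i ∈ S, m i : ℕ) : ℤ)) % 8 ≠ 1) :
    Tendsto (fun X : ℕ => number (fun D => P D ∧ Good (Fin.snoc m D.natAbs : Fin (n + 1) → ℕ)) X /
      number P X) atTop (𝓝 (density ^ (2 ^ n))) := by
  have h1 := denM t_LAW f_XGDEN h.one_lt h.coprime hq hper hex hc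
  refine h1.congr fun X => ?_
  refine congrArg (· / number P X) (Pool.Agent.NH57.SQ.cneg_congr fun D h0 hs =>
    and_congr_right fun hPD => ?_)
  have hne : D ≠ -1 := by
    rintro rfl
    exact hP1 hPD
  have hfour : ∀ S : Finset (Fin n), NoFour (D * ((∏ i ∈ S, m i : ℕ) : ℤ)) ↔
      nx (D * ((∏ i ∈ S, m i : ℕ) : ℤ)).natAbs.primeFactors = 2 := by
    intro S
    have h2 : 1 ≤ ∏ i ∈ S, m i := Nat.one_le_iff_ne_zero.2 (Pool.Agent.NH57.SQ.prod_ne h.one_lt S)
    have h3 : (1 : ℤ) ≤ ((∏ i ∈ S, m i : ℕ) : ℤ) := by exact_mod_cast h2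
    refine four_iff ?_ ?_ ?_
    · nlinarith
    · rw [← Int.squarefree_natAbs, Int.natAbs_mul, Int.natAbs_natCast]
      exact (Nat.squarefree_mul (Nat.Coprime.prod_right fun i _ => hc D hPD i)).2
        ⟨Int.squarefree_natAbs.2 hs, prod_sqf h.squarefree h.coprime S⟩
    · intro h4
      have h5 : D ≤ -2 := by omega
      nlinarith
  constructor
  · intro g
    refine good_snoc h h0 hs hne (hc D hPD) (fun S hS => ?_) fun S => (hfour S).2 (g S)
    apply h8 D hPD S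
    have e1 : ((D.natAbs : ℕ) : ℤ) = -D := by omega
    have e2 : ((D.natAbs * ∏ i ∈ S, m i : ℕ) : ℤ) = -(D * ((∏ i ∈ S, m i : ℕ) : ℤ)) := by
      rw [Nat.cast_mul, e1]
      ring
    omega
  · intro g S
    refine (hfour S).1 ?_
    have g1 := g.noFour (insert (Fin.last n) (S.map Fin.castSuccEmb)) (Finset.insert_nonempty _ _)
    rw [prod_snoc, if_pos (Finset.mem_insert_self _ _)] at g1
    have e : (Finset.univ.filter fun i : Fin n =>
        i.castSucc ∈ insert (Fin.last n) (S.map Fin.castSuccEmb)) = S := by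
      ext i
      simp [Fin.castSucc_ne_last]
    rw [e] at g1
    have e1 : ((D.natAbs : ℕ) : ℤ) = -D := by omega
    have e2 : (-(((∏ i ∈ S, m i) * D.natAbs : ℕ) : ℤ)) = D * ((∏ i ∈ S, m i : ℕ) : ℤ) := by
      rw [Nat.cast_mul, e1]
      ring
    rwa [e2] at g1

theorem good_zero (m : Fin 0 → ℕ) : Good m where
  one_lt := fun i => i.elim0
  squarefree := fun i => i.elim0
  coprime := fun i => i.elim0
  residue := by
    intro S
    rw [Finset.eq_empty_of_isEmpty S, Finset.prod_empty]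
    norm_num
  noFour := by
    intro S hS
    rw [Finset.eq_empty_of_isEmpty S] at hS
    exact absurd hS Finset.not_nonempty_empty

theorem exists_of_pos {P : ℤ → Prop} {X : ℕ} (h : 0 < number P X) : ∃ D, P D := by
  unfold number at h
  obtain ⟨D, hD⟩ := Finset.card_pos.1 (Nat.cast_pos.1 h)
  exact ⟨D, (Finset.mem_filter.1 hD).2.2⟩

theorem exists_good (n : ℕ) : ∃ m : Fin n → ℕ, Good m := by
  induction n with
  | zero => exact ⟨fun _ => 2, good_zero _⟩
  | succ n ih =>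
    obtain ⟨m, h⟩ := ih
    set M : ℕ := ∏ i, m i with hM
    have hM0 : M ≠ 0 := Pool.Agent.NH57.SQ.prod_ne h.one_lt _
    have hu : IsUnit ((9 : ℕ) : ZMod 16) := (ZMod.isUnit_iff_coprime 9 16).2 (by norm_num)
    obtain ⟨l, hl, hlp, hl9⟩ := Nat.forall_exists_prime_gt_and_eq_mod hu M
    have hl16 : l % 16 = 9 := (ZMod.natCast_eq_natCast_iff' l 9 16).1 hl9
    have hcl : Nat.Coprime l M := (Nat.Prime.coprime_iff_not_dvd hlp).2 fun hd =>
      absurd (Nat.le_of_dvd (Nat.pos_of_ne_zero hM0) hd) (by omega)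
    set P : ℤ → Prop := fun D => D ≡ -(l : ℤ) [ZMOD (16 * M : ℕ)] with hPd
    have h16 : ∀ D : ℤ, P D → D % 16 = 7 := by
      intro D hD
      have h1 : D ≡ -(l : ℤ) [ZMOD 16] := hD.of_dvd ⟨M, by push_cast; ring⟩
      have h2 : D % 16 = (-(l : ℤ)) % 16 := h1
      omega
    have hPc : ∀ D : ℤ, P D → ∀ i, Nat.Coprime D.natAbs (m i) := by
      intro D hD i
      have h1 : D ≡ -(l : ℤ) [ZMOD M] := hD.of_dvd ⟨16, by push_cast; ring⟩
      have h2 : IsCoprime D (M : ℤ) := by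
        obtain ⟨k, hk⟩ := h1.dvd
        have h3 : IsCoprime (-(l : ℤ)) (M : ℤ) := (Nat.isCoprime_iff_coprime.2 hcl).neg_left
        have h4 : D = -(l : ℤ) + (M : ℤ) * (-k) := by linear_combination -hk
        rw [h4]
        exact h3.add_mul_left_left (-k)
      have h5 : Nat.Coprime D.natAbs M := by
        have := Int.isCoprime_iff_gcd_eq_one.1 h2
        rwa [Int.gcd, Int.natAbs_natCast] at this
      exact h5.coprime_dvd_right (Finset.dvd_prod_of_mem m (Finset.mem_univ i))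
    have h8 : ∀ D : ℤ, P D → ∀ S : Finset (Fin n), (D * ((∏ i ∈ S, m i : ℕ) : ℤ)) % 8 ≠ 1 := by
      intro D hD S hS
      have h1 := h16 D hD
      have h2 := h.residue S
      apply h2
      have h3 : D ≡ -1 [ZMOD 8] := by
        show D % 8 = (-1) % 8
        omega
      have h4 := h3.mul_right ((∏ i ∈ S, m i : ℕ) : ℤ)
      have h5 : (D * ((∏ i ∈ S, m i : ℕ) : ℤ)) % 8 = (-1 * ((∏ i ∈ S, m i : ℕ) : ℤ)) % 8 := h4
      omega
    have hper : ∀ D D' : ℤ, D ≡ D' [ZMOD (16 * M : ℕ)] → (P D ↔ P D') := fun D D' hDD =>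
      ⟨fun h => hDD.symm.trans h, fun h => hDD.trans h⟩
    have hP1 : ¬ P (-1) := fun h => by
      have := h16 (-1) h
      omega
    have hex : ∃ D : ℤ, D < 0 ∧ Squarefree D ∧ P D := by
      refine ⟨-(l : ℤ), ?_, ?_, Int.ModEq.refl _⟩
      · have := hlp.pos
        omega
      · rw [← Int.squarefree_natAbs, Int.natAbs_neg, Int.natAbs_natCast]
        exact hlp.squarefree
    have hq : 0 < 16 * M := by omega
    obtain ⟨-, c, X₀, hc, hX⟩ := law hq hper hex hP1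
    have hd : (0.2887 : ℝ) < density := Pool.Agent.NH5.PR.t_ETA.2.2.2.1
    have hd0 : (0 : ℝ) < density := by linarith
    have hpos : (0 : ℝ) < density ^ (2 ^ n) := by positivity
    obtain ⟨δ, hδ, hev⟩ := (Pool.Agent.NH57.SQ.low_all
      (R := fun D => Good (Fin.snoc m D.natAbs : Fin (n + 1) → ℕ)) hc hX
      (lawM h hq hper hex hP1 hPc h8) (fun D _ _ _ h => h) (half_pos hpos) (half_lt_self hpos)).2
    obtain ⟨X, hX1, hX2⟩ := (hev.and (eventually_ge_atTop 1)).exists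
    have h9 : 0 < number (fun D => P D ∧ Good (Fin.snoc m D.natAbs : Fin (n + 1) → ℕ)) X := by
      have h12 : (1 : ℝ) ≤ X := by exact_mod_cast hX2
      have h10 : 0 < δ * (X : ℝ) := by positivity
      exact lt_of_lt_of_le h10 hX1
    obtain ⟨D, hD⟩ := exists_of_pos h9
    exact ⟨_, hD.2⟩

end proof

/-- **Schneider's conjecture for `p = 2`, all twists, for a positive proportion of the quadratic and of
the multiquadratic fields.** -/
theorem result :
    (∀ (n : ℕ) (m : Fin n → ℕ), Good m → SchneiderMulti m) ∧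
    ((∀ m : Fin 0 → ℕ, Good m) ∧ ∀ n : ℕ, ∃ m : Fin n → ℕ, Good m) ∧
    (∀ d : ℤ, Squarefree d → d ≠ 1 → d ≠ -1 → NoFour (-|d|) → SchneiderQuadratic d) ∧
    (∀ (n : ℕ) (m : Fin n → ℕ), Good m → ∀ (q : ℕ) (P : ℤ → Prop), 0 < q →
      (∀ D D' : ℤ, D ≡ D' [ZMOD q] → (P D ↔ P D')) → ¬ P (-1) →
      (∃ D : ℤ, D < 0 ∧ Squarefree D ∧ P D) →
      (∀ D : ℤ, P D → (∀ i, Nat.Coprime D.natAbs (m i)) ∧
        ∀ S : Finset (Fin n), (D * ((∏ i ∈ S, m i : ℕ) : ℤ)) % 8 ≠ 1) →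
      Tendsto (fun X : ℕ => number (fun D => P D ∧
        Good (Fin.snoc m D.natAbs : Fin (n + 1) → ℕ)) X / number P X) atTop
          (𝓝 (density ^ (2 ^ n))) ∧
      ∃ δ : ℝ, 0 < δ ∧ ∀ᶠ X : ℕ in atTop, δ * X ≤
        number (fun D => P D ∧ Good (Fin.snoc m D.natAbs : Fin (n + 1) → ℕ)) X) ∧
    (∀ (q : ℕ) (P : ℤ → Prop), 0 < q → (∀ D D' : ℤ, D ≡ D' [ZMOD q] → (P D ↔ P D')) →
      ¬ P (-1) → (∃ D : ℤ, D < 0 ∧ Squarefree D ∧ P D) →
      Tendsto (fun X : ℕ => number (fun D => P D ∧ NoFour D) X / number P X) atTop (𝓝 density) ∧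
      ∃ δ : ℝ, 0 < δ ∧ ∀ᶠ X : ℕ in atTop, δ * X ≤ number (fun D => P D ∧ NoFour D) X) ∧
    0.2887 < density := by
  have hd : (0.2887 : ℝ) < density := Pool.Agent.NH5.PR.t_ETA.2.2.2.1
  refine ⟨fun n m h => multi_of h, ⟨good_zero, exists_good⟩, fun d hs h1 h2 h4 => quad_of hs h1 h2 h4,
    fun n m h q P hq hper hP1 hex hP => ?_, fun q P hq hper hP hex => ?_, hd⟩
  · obtain ⟨-, c, X₀, hc, hX⟩ := law hq hper hex hP1
    have h1 := lawM h hq hper hex hP1 (fun D hD => (hP D hD).1) fun D hD => (hP D hD).2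
    have hpos : (0 : ℝ) < density ^ (2 ^ n) := by positivity
    refine ⟨h1, (Pool.Agent.NH57.SQ.low_all
      (R := fun D => Good (Fin.snoc m D.natAbs : Fin (n + 1) → ℕ)) hc hX h1
      (fun D _ _ _ h => h) (half_pos hpos) (half_lt_self hpos)).2⟩
  · obtain ⟨h1, c, X₀, hc, hX⟩ := law hq hper hex hP
    exact ⟨h1, (Pool.Agent.NH57.SQ.low_all (R := NoFour) hc hX h1 (fun D _ _ _ h => h)
      (by norm_num) hd).2⟩

end Pool.Agent.Results.MP_59f3ad_nt.PositiveProportionQuadratic
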